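import Pool.Agent.Helper40.MR.Defs

/-!
Module KL: the Kusmin-Landau inequality.
-/

open Finset MeasureTheory
open scoped BigOperators Nat

namespace Pool.Agent.Helper40.MR

/-- `cot (pi x)` -/
noncomputable def kl_phi (x : ℝ) : ℝ := Real.cos (Real.pi * x) / Real.sin (Real.pi * x)

/-- `1 / (1 - e (x))` -/
noncomputable def kl_w (x : ℝ) : ℂ := 1 / 2 + Complex.I / 2 * (kl_phi x : ℂ)

theorem kl_sin {x : ℝ} (h0 : 0 < x) (h1 : x ≤ 1 / 2) : 2 * x ≤ Real.sin (Real.pi * x) ∧ 0 ≤ Real.cos (Real.pi * x) := by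
  have hpi := Real.pi_pos
  have h2 : Real.pi * x ≤ Real.pi / 2 := by nlinarith
  constructor
  · have := Real.mul_le_sin (x := Real.pi * x) (by positivity) h2
    have e : 2 / Real.pi * (Real.pi * x) = 2 * x := by field_simp
    rwa [e] at this
  · exact Real.cos_nonneg_of_mem_Icc ⟨by nlinarith, h2⟩

theorem kl_phi_bd {x l : ℝ} (hl : 0 < l) (h0 : l ≤ x) (h1 : x ≤ 1 / 2) : 0 ≤ kl_phi x ∧ kl_phi x ≤ 1 / (2 * l) := by
  obtain ⟨a, b⟩ := kl_sin (hl.trans_le h0) h1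
  have hs : 0 < Real.sin (Real.pi * x) := by linarith
  unfold kl_phi
  constructor
  · exact div_nonneg b hs.le
  · exact div_le_div₀ zero_le_one (Real.cos_le_one _) (by linarith) (by linarith)

theorem kl_phi_anti {x y : ℝ} (h0 : 0 < x) (hxy : x ≤ y) (h1 : y ≤ 1 / 2) : kl_phi y ≤ kl_phi x := by
  obtain ⟨a, b⟩ := kl_sin h0 (hxy.trans h1)
  obtain ⟨a', b'⟩ := kl_sin (h0.trans_le hxy) h1
  have hpi := Real.pi_pos
  have h3 : Real.pi * x ≤ Real.pi * y := mul_le_mul_of_nonneg_left hxy hpi.le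
  have h4 : Real.pi * y ≤ Real.pi / 2 := by nlinarith
  have h5 : 0 ≤ Real.pi * x := by positivity
  have c1 : Real.cos (Real.pi * y) ≤ Real.cos (Real.pi * x) := Real.cos_le_cos_of_nonneg_of_le_pi h5 (by linarith) h3
  have c2 : Real.sin (Real.pi * x) ≤ Real.sin (Real.pi * y) := Real.sin_le_sin_of_le_of_le_pi_div_two (by linarith) h4 h3
  unfold kl_phi
  exact div_le_div₀ (by linarith) c1 (by linarith) c2

theorem kl_ee_add (x y : ℝ) : ee (x + y) = ee x * ee y := by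
  unfold ee
  rw [← Complex.exp_add]
  congr 1
  push_cast
  ring

theorem kl_norm (x : ℝ) : ‖ee x‖ = 1 := Complex.norm_exp_ofReal_mul_I _

theorem kl_alg (S C : ℂ) (hS : S ≠ 0) (h : S ^ 2 + C ^ 2 = 1) :
    (1 - (C + S * Complex.I) ^ 2) * (1 / 2 + Complex.I / 2 * (C / S)) = 1 := by
  have hI : Complex.I ^ 2 = -1 := Complex.I_sq
  have e : 1 / 2 + Complex.I / 2 * (C / S) = (S + Complex.I * C) / (2 * S) := by
    field_simp
  rw [e, ← mul_div_assoc, div_eq_one_iff_eq (mul_ne_zero two_ne_zero hS)]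
  linear_combination (2 * S - (S + Complex.I * C)) * h + (-S ^ 2 * (S + Complex.I * C) - 2 * S * C ^ 2) * hI

theorem kl_w_eq {x : ℝ} (h0 : 0 < x) (h1 : x ≤ 1 / 2) : (1 - ee x) * kl_w x = 1 := by
  obtain ⟨a, _⟩ := kl_sin h0 h1
  have hs : Real.sin (Real.pi * x) ≠ 0 := by
    have : 0 < Real.sin (Real.pi * x) := by linarith
    exact this.ne'
  have hs' : (Real.sin (Real.pi * x) : ℂ) ≠ 0 := by exact_mod_cast hs
  have e1 : ee x = ((Real.cos (Real.pi * x) : ℂ) + (Real.sin (Real.pi * x) : ℂ) * Complex.I) ^ 2 := by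
    unfold ee
    have : (((2 * Real.pi * x : ℝ)) : ℂ) * Complex.I = (2 : ℕ) * (((Real.pi * x : ℝ) : ℂ) * Complex.I) := by
      push_cast
      ring
    rw [this, Complex.exp_nat_mul, Complex.exp_mul_I, Complex.ofReal_cos, Complex.ofReal_sin]
  have e2 : (Real.sin (Real.pi * x) : ℂ) ^ 2 + (Real.cos (Real.pi * x) : ℂ) ^ 2 = 1 := by
    exact_mod_cast Real.sin_sq_add_cos_sq (Real.pi * x)
  have e3 : ((kl_phi x : ℝ) : ℂ) = (Real.cos (Real.pi * x) : ℂ) / (Real.sin (Real.pi * x) : ℂ) := by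
    unfold kl_phi
    exact Complex.ofReal_div _ _
  rw [e1]
  unfold kl_w
  rw [e3]
  exact kl_alg _ _ hs' e2

theorem kl_w_norm {x l : ℝ} (hl : 0 < l) (h0 : l ≤ x) (h1 : x ≤ 1 / 2) : ‖kl_w x‖ ≤ 1 / (2 * l) := by
  obtain ⟨a, b⟩ := kl_phi_bd hl h0 h1
  have hl2 : l ≤ 1 / 2 := h0.trans h1
  unfold kl_w
  calc ‖(1 / 2 : ℂ) + Complex.I / 2 * (kl_phi x : ℂ)‖ ≤ ‖(1 / 2 : ℂ)‖ + ‖Complex.I / 2 * (kl_phi x : ℂ)‖ :=
        norm_add_le _ _
    _ = 1 / 2 + kl_phi x / 2 := by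
        rw [norm_mul, norm_div, norm_div, Complex.norm_I, Complex.norm_real, Real.norm_eq_abs, abs_of_nonneg a]
        norm_num
        ring
    _ ≤ 1 / (2 * l) := by
        have h3 : 1 / 2 ≤ 1 / (4 * l) := by
          apply div_le_div_of_nonneg_left (by norm_num) (by positivity) (by linarith)
        have h4 : 1 / (2 * l) = 2 * (1 / (4 * l)) := by
          field_simp
          norm_num
        have h5 : 1 / (4 * l) + 1 / (4 * l) = 1 / (2 * l) := by rw [h4]; ring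
        linarith

theorem kl_w_sub (x y : ℝ) : ‖kl_w x - kl_w y‖ = |kl_phi x - kl_phi y| / 2 := by
  unfold kl_w
  have : (1 / 2 + Complex.I / 2 * (kl_phi x : ℂ)) - (1 / 2 + Complex.I / 2 * (kl_phi y : ℂ))
      = Complex.I / 2 * ((kl_phi x - kl_phi y : ℝ) : ℂ) := by
    push_cast
    ring
  rw [this, norm_mul, norm_div, Complex.norm_I, Complex.norm_real, Real.norm_eq_abs]
  norm_num
  ring

/-- Abel summation -/
theorem kl_abel (G : ℕ → ℝ) (a : ℕ) (l : ℝ) (hl : 0 < l) (ε : ℝ) :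
    ∀ b, a ≤ b → (∀ n, a ≤ n → n ≤ b → l ≤ G (n + 1) - G n ∧ G (n + 1) - G n ≤ 1 / 2) →
    (∀ n, a ≤ n → n < b → |kl_phi (G (n + 2) - G (n + 1)) - kl_phi (G (n + 1) - G n)|
      = ε * (kl_phi (G (n + 2) - G (n + 1)) - kl_phi (G (n + 1) - G n))) →
    ‖∑ n ∈ Ioc a b, ee (G n) + ee (G (b + 1)) * kl_w (G (b + 1) - G b)‖ ≤
      ‖kl_w (G (a + 1) - G a)‖ + ε * (kl_phi (G (b + 1) - G b) - kl_phi (G (a + 1) - G a)) / 2 := by
  intro b hab
  induction b, hab using Nat.le_induction with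
  | base =>
    intro _ _
    simp [kl_norm]
  | succ b hab ih =>
    intro h1 h2
    have ih' := ih (fun n x y => h1 n x (by omega)) (fun n x y => h2 n x (by omega))
    have hb := h1 (b + 1) (by omega) le_rfl
    have hw := kl_w_eq (hl.trans_le hb.1) hb.2
    have e1 : ee (G (b + 1)) = (ee (G (b + 1)) - ee (G (b + 1 + 1))) * kl_w (G (b + 1 + 1) - G (b + 1)) := by
      have : ee (G (b + 1 + 1)) = ee (G (b + 1)) * ee (G (b + 1 + 1) - G (b + 1)) := by
        rw [← kl_ee_add]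
        congr 1
        ring
      rw [this]
      linear_combination -ee (G (b + 1)) * hw
    have e2 : ∑ n ∈ Ioc a (b + 1), ee (G n) + ee (G (b + 1 + 1)) * kl_w (G (b + 1 + 1) - G (b + 1))
        = (∑ n ∈ Ioc a b, ee (G n) + ee (G (b + 1)) * kl_w (G (b + 1) - G b))
          + ee (G (b + 1)) * (kl_w (G (b + 1 + 1) - G (b + 1)) - kl_w (G (b + 1) - G b)) := by
      rw [← Finset.insert_Ioc_right_eq_Ioc_add_one (by omega), Finset.sum_insert (by simp)]
      linear_combination e1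
    rw [e2]
    refine (norm_add_le _ _).trans ?_
    rw [norm_mul, kl_norm, one_mul, kl_w_sub]
    have h3 := h2 b hab (Nat.lt_succ_self b)
    have h4 : b + 1 + 1 = b + 2 := rfl
    rw [h4, h3]
    linarith

theorem st_KL : ST_KL := by
  refine ⟨2, by norm_num, ?_⟩
  intro G a b l hab hl h1 h2
  have key : ∃ ε : ℝ, |ε| = 1 ∧ ∀ n, a ≤ n → n < b → |kl_phi (G (n + 2) - G (n + 1)) - kl_phi (G (n + 1) - G n)|
      = ε * (kl_phi (G (n + 2) - G (n + 1)) - kl_phi (G (n + 1) - G n)) := by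
    rcases h2 with h2 | h2
    · refine ⟨-1, by simp, fun n x y => ?_⟩
      have p1 := h1 n x y.le
      have p2 := h1 (n + 1) (by omega) (by omega)
      have := kl_phi_anti (hl.trans_le p1.1) (h2 n x y.le) p2.2
      rw [abs_of_nonpos (by linarith)]
      ring
    · refine ⟨1, by simp, fun n x y => ?_⟩
      have p1 := h1 n x y.le
      have p2 := h1 (n + 1) (by omega) (by omega)
      have := kl_phi_anti (hl.trans_le p2.1) (h2 n x y.le) p1.2
      rw [abs_of_nonneg (by linarith)]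
      ring
  obtain ⟨ε, hε, hk⟩ := key
  have k1 := kl_abel G a l hl ε b hab h1 hk
  have pa := h1 a le_rfl hab
  have pb := h1 b hab le_rfl
  have wa := kl_w_norm hl pa.1 pa.2
  have wb := kl_w_norm hl pb.1 pb.2
  have fa := kl_phi_bd hl pa.1 pa.2
  have fb := kl_phi_bd hl pb.1 pb.2
  have e1 : ε * (kl_phi (G (b + 1) - G b) - kl_phi (G (a + 1) - G a)) ≤ 1 / (2 * l) := by
    calc ε * (kl_phi (G (b + 1) - G b) - kl_phi (G (a + 1) - G a))
        ≤ |ε * (kl_phi (G (b + 1) - G b) - kl_phi (G (a + 1) - G a))| := le_abs_self _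
      _ = |kl_phi (G (b + 1) - G b) - kl_phi (G (a + 1) - G a)| := by rw [abs_mul, hε, one_mul]
      _ ≤ 1 / (2 * l) := by
        rw [abs_le]
        constructor <;> linarith
  have e2 : ∑ n ∈ Ioc a b, ee (G n) = (∑ n ∈ Ioc a b, ee (G n) + ee (G (b + 1)) * kl_w (G (b + 1) - G b))
      - ee (G (b + 1)) * kl_w (G (b + 1) - G b) := by ring
  rw [e2]
  refine (norm_sub_le _ _).trans ?_
  rw [norm_mul, kl_norm, one_mul]
  have e3 : 2 / l = 4 * (1 / (2 * l)) := by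
    field_simp
    norm_num
  rw [e3]
  have e4 : 0 ≤ 1 / (2 * l) := by positivity
  linarith

end Pool.Agent.Helper40.MR
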