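import Pool.Agent.Helper40.MR.Defs

/-!
Module L1: consequence of `L (1, ψ) ≠ 0`.
-/

open Finset MeasureTheory
open scoped BigOperators Nat

namespace Pool.Agent.Helper40.MR

theorem l1_lower {q : ℕ} [NeZero q] (ψ : DirichletCharacter ℂ q) (hψ : ψ ≠ 1) :
    ∃ m : ℝ, 0 < m ∧ ∀ σ : ℝ, 0 ≤ σ → σ ≤ 1 → m ≤ ‖DirichletCharacter.LFunction ψ ((1 + σ : ℝ) : ℂ)‖ := by
  have hc : Continuous fun σ : ℝ => ‖DirichletCharacter.LFunction ψ ((1 + σ : ℝ) : ℂ)‖ := by
    have h1 := (DirichletCharacter.differentiable_LFunction hψ).continuous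
    have h2 : Continuous fun σ : ℝ => ((1 + σ : ℝ) : ℂ) := by fun_prop
    exact (h1.comp h2).norm
  obtain ⟨σ₀, h0, hmin⟩ := (isCompact_Icc (a := (0 : ℝ)) (b := 1)).exists_isMinOn
    (Set.nonempty_Icc.2 zero_le_one) hc.continuousOn
  refine ⟨_, ?_, fun σ h1 h2 => hmin ⟨h1, h2⟩⟩
  refine norm_pos_iff.2 (DirichletCharacter.LFunction_ne_zero_of_one_le_re ψ (Or.inl hψ) ?_)
  rw [Complex.ofReal_re]
  linarith [h0.1]

theorem st_L1 (hE : ST_EUL) (hS : ST_SIG) : ST_L1 := by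
  obtain ⟨C₁, _, hE⟩ := hE
  obtain ⟨C₂, _, hS⟩ := hS
  intro q ψ hq hψ
  have : NeZero q := ⟨by omega⟩
  obtain ⟨m, hm, hlow⟩ := l1_lower ψ hψ
  refine ⟨C₁ + C₂ - Real.log m, fun x hx => ?_⟩
  have hlx : 1 ≤ Real.log x := by
    have h1 : Real.log 3 ≤ Real.log x := Real.log_le_log (by norm_num) hx
    have h2 : 1 ≤ Real.log 3 := by
      rw [Real.le_log_iff_exp_le (by norm_num)]
      exact Real.exp_one_lt_d9.le.trans (by norm_num)
    linarith
  set σ := 1 / Real.log x with hσ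
  have s0 : 0 < σ := by positivity
  have s1 : σ ≤ 1 := by
    rw [hσ, div_le_one (by linarith)]
    exact hlx
  have hCM : CM (fun n => ψ n) := by
    refine ⟨by simp, fun m n => by simp, fun n => DirichletCharacter.norm_le_one ψ _⟩
  have k1 := (hE (fun n => ψ n) hCM σ 0 s0 s1).2
  have k2 := hS (fun n => (ψ n).re) x (fun n => (Complex.abs_re_le_norm _).trans (DirichletCharacter.norm_le_one ψ _)) hx
  have e1 : ∀ p : Nat.Primes, (ψ (p : ℕ) * nit p 0).re = (ψ (p : ℕ)).re := by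
    intro p
    simp [nit]
  simp only [e1] at k1
  have e2 : Gv (fun n => ψ n) σ 0 = DirichletCharacter.LFunction ψ ((1 + σ : ℝ) : ℂ) := by
    unfold Gv
    rw [Complex.ofReal_zero, zero_mul, add_zero,
      DirichletCharacter.LFunction_eq_LSeries ψ (by rw [Complex.ofReal_re]; linarith)]
  rw [e2] at k1
  have k3 : Real.log m ≤ Real.log ‖DirichletCharacter.LFunction ψ ((1 + σ : ℝ) : ℂ)‖ :=
    Real.log_le_log hm (hlow σ s0.le s1)
  rw [abs_le] at k1 k2
  linarith [k1.1, k1.2, k2.1, k2.2]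

end Pool.Agent.Helper40.MR
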