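import Pool.Agent.Helper70.MR.TJ

/-!
Module T0: the first region.
-/

open Finset MeasureTheory
open scoped BigOperators Nat

namespace Pool.Agent.Helper40.MR

/-- mean value of a long polynomial -/
theorem t0_long {C : ℝ} (hC : 0 < C)
    (hMV : ∀ (N : ℕ) (T : ℝ) (c : ℕ → ℂ), 1 ≤ T →
      ∫ t in (-T)..T, ‖∑ n ∈ Icc 1 N, c n * nit n t‖ ^ 2 ≤ C * (T + N) * ∑ n ∈ Icc 1 N, ‖c n‖ ^ 2)
    {M T : ℝ} (hM : 0 < M) (hT : 1 ≤ T) {b : ℕ → ℂ} (hb : ∀ n, ‖b n‖ ≤ 1) :
    ∫ t in (-T)..T, ‖DP (IocN M (2 * M)) b t‖ ^ 2 ≤ 6 * C * (T / M + 1) := by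
  classical
  rcases lt_or_ge M (1 / 2) with h | h
  · have e : IocN M (2 * M) = ∅ := by
      unfold IocN
      have : ⌊2 * M⌋₊ = 0 := Nat.floor_eq_zero.2 (by linarith)
      rw [this]
      exact Finset.Ioc_eq_empty (by omega)
    rw [e]
    have : ∀ t, ‖DP ∅ b t‖ ^ 2 = 0 := fun t => by
      simp [DP]
    simp only [this]
    rw [intervalIntegral.integral_zero]
    have : 0 ≤ T / M := div_nonneg (by linarith) hM.le
    positivity
  · set N := ⌊2 * M⌋₊ with hN
    set c : ℕ → ℂ := fun n => if n ∈ IocN M (2 * M) then b n / n else 0 with hc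
    have hsub : IocN M (2 * M) ⊆ Icc 1 N := by
      intro n hn
      unfold IocN at hn
      rw [Finset.mem_Ioc] at hn
      rw [Finset.mem_Icc]
      exact ⟨by omega, hn.2⟩
    have e1 : ∀ t, DP (IocN M (2 * M)) b t = ∑ n ∈ Icc 1 N, c n * nit n t := by
      intro t
      unfold DP
      rw [← Finset.sum_subset hsub (fun n _ hn => by simp [hc, hn])]
      exact Finset.sum_congr rfl fun n hn => by simp [hc, hn]
    have e2 : ∑ n ∈ Icc 1 N, ‖c n‖ ^ 2 ≤ 3 / M := by
      have f1 : ∑ n ∈ Icc 1 N, ‖c n‖ ^ 2 = ∑ n ∈ IocN M (2 * M), ‖c n‖ ^ 2 := by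
        rw [← Finset.sum_subset hsub (fun n _ hn => by simp [hc, hn])]
      rw [f1]
      have f2 : ∀ n ∈ IocN M (2 * M), ‖c n‖ ^ 2 ≤ 1 / M ^ 2 := by
        intro n hn
        have hn' := hn
        unfold IocN at hn'
        rw [Finset.mem_Ioc] at hn'
        have g1 : M < n := by
          have := Nat.lt_floor_add_one M
          have g2 : ((⌊M⌋₊ + 1 : ℕ) : ℝ) ≤ n := by exact_mod_cast hn'.1
          push_cast at g2
          linarith
        simp only [hc, hn, if_true]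
        rw [norm_div, Complex.norm_natCast, div_pow]
        have g3 : ‖b n‖ ^ 2 ≤ 1 := pow_le_one₀ (norm_nonneg _) (hb n)
        have g4 : M ^ 2 ≤ (n : ℝ) ^ 2 := pow_le_pow_left₀ hM.le g1.le 2
        exact div_le_div₀ (by norm_num) g3 (by positivity) g4
      have f3 : ((IocN M (2 * M)).card : ℝ) ≤ 3 * M := by
        unfold IocN
        rw [Nat.card_Ioc, Nat.cast_sub (Nat.floor_mono (by linarith))]
        have g1 := Nat.floor_le (show 0 ≤ 2 * M by linarith)
        have g2 := Nat.lt_floor_add_one M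
        linarith
      calc ∑ n ∈ IocN M (2 * M), ‖c n‖ ^ 2 ≤ (IocN M (2 * M)).card • (1 / M ^ 2) := Finset.sum_le_card_nsmul _ _ _ f2
        _ ≤ 3 * M * (1 / M ^ 2) := by
          rw [nsmul_eq_mul]
          exact mul_le_mul_of_nonneg_right f3 (by positivity)
        _ = 3 / M := by
          field_simp
    have e3 := hMV N T c hT
    simp only [e1]
    refine e3.trans ?_
    have h1 : (N : ℝ) ≤ 2 * M := Nat.floor_le (by linarith)
    have h2 : C * (T + N) ≤ C * (T + 2 * M) := mul_le_mul_of_nonneg_left (by linarith) hC.le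
    calc C * (T + N) * ∑ n ∈ Icc 1 N, ‖c n‖ ^ 2 ≤ C * (T + 2 * M) * (3 / M) :=
          mul_le_mul h2 e2 (Finset.sum_nonneg fun _ _ => by positivity) (mul_nonneg hC.le (by linarith))
      _ = C * (3 * (T / M) + 6) := by
          field_simp
          ring
      _ ≤ 6 * C * (T / M + 1) := by
          have : 0 ≤ T / M := div_nonneg (by linarith) hM.le
          nlinarith

theorem st_T0 (hMV : ST_MV) (hDEC : ST_DEC) : ST_T0 := by
  obtain ⟨C₀, hC₀, hMV⟩ := hMV
  obtain ⟨C₁, hC₁, hD⟩ := hDEC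
  refine ⟨2 * C₁ + 2 * (Real.exp 2 * (6 * C₀)), by positivity, ?_⟩
  intro P Q H X T α f s g1 g2 g3 g4 g5 g6 g7 g8 g9
  obtain ⟨E, hEc, hE1, hE2⟩ := hD P Q H X f s g1 g2 g3 g4 g8 g9
  have hf := g8.2.2
  have hH : 0 < H := by linarith
  have hX : 0 < X := by linarith
  have hP : 0 < P := by linarith
  have hQ : 0 < Q := by linarith
  have hlP : 0 ≤ Real.log P := Real.log_nonneg (by linarith)
  have hlQ : 0 ≤ Real.log Q := Real.log_nonneg (by linarith)
  set A := DP (IocN X (2 * X)) (res (fun n => s n ∧ Hit P Q n) f) with hA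
  set Rv : ℕ → ℝ → ℂ := fun v t =>
    DP (IocN (X * Real.exp (-(v / H))) (2 * (X * Real.exp (-(v / H))))) (bco P Q f s) t with hRv
  set Qv : ℕ → ℝ → ℂ := fun v t => DP (Cls P Q H v) f t with hQv
  have cR : ∀ v, Continuous (Rv v) := fun v => tj_cont _ _
  set c0 : ℝ := Real.exp 2 * P ^ (-(2 * α)) with hc0
  have hc00 : 0 < c0 := by positivity
  set G : ℝ → ℝ := fun t => 2 * ‖E t‖ ^ 2 +
    2 * ((Vs P Q H).card * ∑ v ∈ Vs P Q H, c0 * ‖Rv v t‖ ^ 2) with hG
  have cS : Continuous fun t => ∑ v ∈ Vs P Q H, c0 * ‖Rv v t‖ ^ 2 :=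
    continuous_finsetSum _ fun v _ => continuous_const.mul ((cR v).norm.pow 2)
  have cG : Continuous G :=
    (continuous_const.mul (hEc.norm.pow 2)).add (continuous_const.mul (continuous_const.mul cS))
  have G0 : ∀ t, 0 ≤ G t := fun t => by
    have : 0 ≤ ∑ v ∈ Vs P Q H, c0 * ‖Rv v t‖ ^ 2 := Finset.sum_nonneg fun v _ => by positivity
    simp only [hG]
    positivity
  have meas : MeasurableSet {t | t ∈ Set.Icc (-T) T ∧ Small P Q H f α t} :=
    measurableSet_Icc.inter (tj_meas P Q H f α)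
  have x01 : ∀ v ∈ Vs P Q H, Real.log P - 1 ≤ (v : ℝ) / H ∧ (v : ℝ) / H ≤ Real.log Q := by
    intro v hv
    unfold Vs at hv
    rw [Finset.mem_Icc] at hv
    constructor
    · rw [le_div_iff₀ hH]
      have h1 : H * Real.log P - 1 ≤ (v : ℝ) := by
        have := Nat.lt_floor_add_one (H * Real.log P)
        have h2 : ((⌊H * Real.log P⌋₊ : ℕ) : ℝ) ≤ v := Nat.cast_le.2 hv.1
        linarith
      nlinarith
    · rw [div_le_iff₀ hH]
      have h1 : (v : ℝ) ≤ H * Real.log Q := (Nat.cast_le.2 hv.2).trans (Nat.floor_le (by positivity))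
      linarith
  have hle : ∀ t ∈ {t | t ∈ Set.Icc (-T) T ∧ Small P Q H f α t}, ‖A t‖ ^ 2 ≤ G t := by
    rintro t ⟨_, hs1⟩
    have h1 : A t = E t + ∑ v ∈ Vs P Q H, Qv v t * Rv v t := by
      rw [hE1 t, add_comm]
    rw [h1]
    refine (tj_sq _ _).trans ?_
    simp only [hG]
    refine add_le_add le_rfl (mul_le_mul_of_nonneg_left ?_ (by norm_num))
    refine (tj_sum_sq _ _).trans (mul_le_mul_of_nonneg_left (Finset.sum_le_sum fun v hv => ?_) (Nat.cast_nonneg _))
    have a1 : ‖Qv v t‖ ≤ Real.exp (-(α * (v / H))) := hs1 v hv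
    have a2 : ‖Qv v t‖ ^ 2 ≤ c0 := by
      calc ‖Qv v t‖ ^ 2 ≤ Real.exp (-(α * (v / H))) ^ 2 := pow_le_pow_left₀ (norm_nonneg _) a1 2
        _ = Real.exp (-(2 * α * (v / H))) := by
          rw [← Real.exp_nat_mul]
          congr 1
          push_cast
          ring
        _ ≤ Real.exp (2 + Real.log P * (-(2 * α))) := by
          apply Real.exp_le_exp.2
          have := (x01 v hv).1
          nlinarith
        _ = c0 := by
          rw [Real.exp_add, hc0, Real.rpow_def_of_pos hP]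
    rw [norm_mul, mul_pow]
    exact mul_le_mul_of_nonneg_right a2 (by positivity)
  refine (tj_region meas (fun t ht => ht.1) (by linarith) ((tj_cont _ _).norm.pow 2) cG G0 hle).trans ?_
  have e1 : ∫ t in (-T)..T, G t = 2 * (∫ t in (-T)..T, ‖E t‖ ^ 2) +
      2 * ((Vs P Q H).card * ∑ v ∈ Vs P Q H, c0 * ∫ t in (-T)..T, ‖Rv v t‖ ^ 2) := by
    have i1 : IntervalIntegrable (fun t => 2 * ‖E t‖ ^ 2) volume (-T) T :=
      (continuous_const.mul (hEc.norm.pow 2)).intervalIntegrable _ _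
    have i2 : IntervalIntegrable (fun t => 2 * ((Vs P Q H).card *
        ∑ v ∈ Vs P Q H, c0 * ‖Rv v t‖ ^ 2)) volume (-T) T :=
      (continuous_const.mul (continuous_const.mul cS)).intervalIntegrable _ _
    simp only [hG]
    rw [intervalIntegral.integral_add i1 i2, intervalIntegral.integral_const_mul,
      intervalIntegral.integral_const_mul, intervalIntegral.integral_const_mul]
    congr 3
    rw [intervalIntegral.integral_finsetSum]
    · refine Finset.sum_congr rfl fun v _ => ?_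
      rw [intervalIntegral.integral_const_mul]
    · intro v _
      exact (continuous_const.mul ((cR v).norm.pow 2)).intervalIntegrable _ _
  rw [e1]
  have hTX : 0 ≤ T / X + 1 := by positivity
  have e2 : ∀ v ∈ Vs P Q H, c0 * ∫ t in (-T)..T, ‖Rv v t‖ ^ 2 ≤ c0 * (6 * C₀ * (T * Q / X + 1)) := by
    intro v hv
    refine mul_le_mul_of_nonneg_left ?_ hc00.le
    refine (t0_long hC₀ hMV (by positivity) g5 (tj_bco hf)).trans ?_
    refine mul_le_mul_of_nonneg_left ?_ (by positivity)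
    have h1 : T / (X * Real.exp (-((v : ℝ) / H))) ≤ T * Q / X := by
      have h2 : Real.exp ((v : ℝ) / H) ≤ Q := by
        calc Real.exp ((v : ℝ) / H) ≤ Real.exp (Real.log Q) := Real.exp_le_exp.2 (x01 v hv).2
          _ = Q := Real.exp_log hQ
      have h3 : T / (X * Real.exp (-((v : ℝ) / H))) = T / X * Real.exp ((v : ℝ) / H) := by
        rw [Real.exp_neg]
        field_simp
      rw [h3]
      calc T / X * Real.exp ((v : ℝ) / H) ≤ T / X * Q := mul_le_mul_of_nonneg_left h2 (by positivity)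
        _ = T * Q / X := by ring
    linarith
  have c1 : ((Vs P Q H).card : ℝ) ≤ H * Real.log Q + 1 := tj_card (by positivity)
  have w0 : 0 ≤ c0 * (6 * C₀ * (T * Q / X + 1)) := by positivity
  have e3 : ∑ v ∈ Vs P Q H, c0 * ∫ t in (-T)..T, ‖Rv v t‖ ^ 2 ≤
      (H * Real.log Q + 1) * (c0 * (6 * C₀ * (T * Q / X + 1))) := by
    calc ∑ v ∈ Vs P Q H, c0 * ∫ t in (-T)..T, ‖Rv v t‖ ^ 2
        ≤ ∑ v ∈ Vs P Q H, c0 * (6 * C₀ * (T * Q / X + 1)) := Finset.sum_le_sum e2
      _ = (Vs P Q H).card * (c0 * (6 * C₀ * (T * Q / X + 1))) := by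
          rw [Finset.sum_const, nsmul_eq_mul]
      _ ≤ _ := mul_le_mul_of_nonneg_right c1 w0
  have e5 : ((Vs P Q H).card : ℝ) * ∑ v ∈ Vs P Q H, c0 * ∫ t in (-T)..T, ‖Rv v t‖ ^ 2 ≤
      (H * Real.log Q + 1) * ((H * Real.log Q + 1) * (c0 * (6 * C₀ * (T * Q / X + 1)))) :=
    (mul_le_mul_of_nonneg_left e3 (Nat.cast_nonneg _)).trans (mul_le_mul_of_nonneg_right c1 (by positivity))
  have e4 := hE2 T g5
  have p1 : 0 ≤ C₁ * ((H * Real.log Q + 1) ^ 2 * P ^ (-(2 * α)) * (T * Q / X + 1)) := by positivity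
  have p2 : 0 ≤ (Real.exp 2 * (6 * C₀)) * ((T / X + 1) * (1 / H + 1 / P + 1 / X)) := by positivity
  have e6 : (H * Real.log Q + 1) * ((H * Real.log Q + 1) * (c0 * (6 * C₀ * (T * Q / X + 1))))
      = (Real.exp 2 * (6 * C₀)) * ((H * Real.log Q + 1) ^ 2 * P ^ (-(2 * α)) * (T * Q / X + 1)) := by
    rw [hc0]
    ring
  rw [e6] at e5
  linear_combination 2 * p1 + 2 * p2 + 2 * e4 + 2 * e5

end Pool.Agent.Helper40.MR
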