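import Pool.Agent.Helper40.MR.Defs

/-!
Module TJ: the intermediate regions.
-/

open Finset MeasureTheory
open scoped BigOperators Nat

namespace Pool.Agent.Helper40.MR

theorem tj_cont (s : Finset ℕ) (c : ℕ → ℂ) : Continuous (DP s c) := by
  unfold DP nit
  fun_prop

theorem tj_meas (P Q H : ℝ) (f : ℕ → ℂ) (α : ℝ) : MeasurableSet {t | Small P Q H f α t} := by
  have : {t | Small P Q H f α t} = ⋂ v ∈ Vs P Q H,
      {t | ‖DP (Cls P Q H v) f t‖ ≤ Real.exp (-(α * (v / H)))} := by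
    ext t
    simp [Small]
  rw [this]
  refine Finset.measurableSet_biInter _ fun v _ => ?_
  exact (isClosed_le (tj_cont _ _).norm continuous_const).measurableSet

theorem tj_region {R : Set ℝ} {T : ℝ} (hR : MeasurableSet R) (hRT : R ⊆ Set.Icc (-T) T) (hT : 0 ≤ T)
    {g G : ℝ → ℝ} (hg : Continuous g) (hG : Continuous G) (h0 : ∀ t, 0 ≤ G t) (hle : ∀ t ∈ R, g t ≤ G t) :
    ∫ t in R, g t ≤ ∫ t in (-T)..T, G t := by
  have i1 : IntegrableOn g (Set.Icc (-T) T) := hg.continuousOn.integrableOn_compact isCompact_Icc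
  have i2 : IntegrableOn G (Set.Icc (-T) T) := hG.continuousOn.integrableOn_compact isCompact_Icc
  calc ∫ t in R, g t ≤ ∫ t in R, G t :=
        setIntegral_mono_on (i1.mono_set hRT) (i2.mono_set hRT) hR hle
    _ ≤ ∫ t in Set.Icc (-T) T, G t :=
        setIntegral_mono_set i2 (Filter.Eventually.of_forall fun t => h0 t) (Filter.Eventually.of_forall hRT)
    _ = ∫ t in (-T)..T, G t := by
        rw [intervalIntegral.integral_of_le (by linarith), integral_Icc_eq_integral_Ioc]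

theorem tj_card {P Q H : ℝ} (hH : 0 ≤ H * Real.log Q) : ((Vs P Q H).card : ℝ) ≤ H * Real.log Q + 1 := by
  unfold Vs
  rw [Nat.card_Icc]
  have h1 : ((⌊H * Real.log Q⌋₊ + 1 - ⌊H * Real.log P⌋₊ : ℕ) : ℝ) ≤ ((⌊H * Real.log Q⌋₊ + 1 : ℕ) : ℝ) := by
    exact_mod_cast Nat.sub_le _ _
  have h2 := Nat.floor_le hH
  push_cast at h1 ⊢
  linarith

theorem tj_bco {P Q : ℝ} {f : ℕ → ℂ} {s : ℕ → Prop} (hf : ∀ n, ‖f n‖ ≤ 1) (n : ℕ) :
    ‖bco P Q f s n‖ ≤ 1 := by
  unfold bco
  split_ifs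
  · rw [norm_div]
    have h1 : ‖((Om P Q n : ℂ) + 1)‖ = (Om P Q n : ℝ) + 1 := by
      have : ((Om P Q n : ℂ) + 1) = (((Om P Q n : ℝ) + 1 : ℝ) : ℂ) := by push_cast; rfl
      rw [this, Complex.norm_real, Real.norm_eq_abs, abs_of_nonneg (by positivity)]
    rw [h1]
    have h2 : (1 : ℝ) ≤ (Om P Q n : ℝ) + 1 := by
      have : (0 : ℝ) ≤ (Om P Q n : ℝ) := Nat.cast_nonneg _
      linarith
    rw [div_le_one (by linarith)]
    exact (hf n).trans h2
  · simp

theorem tj_Cls {P Q H : ℝ} (hH : 1 ≤ H) (v : ℕ) :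
    ∀ p ∈ Cls P Q H v, p.Prime ∧ Real.exp (v / H) < p ∧ (p : ℝ) ≤ Real.exp 1 * Real.exp (v / H) := by
  intro p hp
  unfold Cls PrI at hp
  rw [Finset.mem_filter, Finset.mem_filter] at hp
  refine ⟨hp.1.2, hp.2.1, hp.2.2.trans ?_⟩
  rw [← Real.exp_add]
  apply Real.exp_le_exp.2
  rw [add_div]
  have : 1 / H ≤ 1 := by
    rw [div_le_one (by linarith)]
    exact hH
  linarith

/-- the factorial bound -/
theorem tj_fact {l : ℕ} {B L : ℝ} (h1 : (2 * l : ℝ) ≤ B) (h2 : 1 ≤ L) (h3 : 0 ≤ B)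
    (h4 : (2 * l : ℝ) ≤ 4 * L) :
    Real.exp (2 * l) * ((2 * l)! : ℕ) ≤ Real.exp (B * (Real.log L + 3)) := by
  have hL : 0 ≤ Real.log L := Real.log_nonneg h2
  rcases Nat.eq_zero_or_pos l with h | h
  · subst h
    simp
    positivity
  · have e1 : (((2 * l)! : ℕ) : ℝ) ≤ ((2 * l : ℕ) : ℝ) ^ (2 * l) := by
      exact_mod_cast Nat.factorial_le_pow (2 * l)
    have hl : (0 : ℝ) < ((2 * l : ℕ) : ℝ) := by
      have : 0 < 2 * l := by omega
      exact_mod_cast this
    have e2 : ((2 * l : ℕ) : ℝ) ^ (2 * l) = Real.exp ((2 * l : ℕ) * Real.log (2 * l : ℕ)) := by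
      rw [← Real.rpow_natCast, Real.rpow_def_of_pos hl, mul_comm]
    have e3 : Real.log ((2 * l : ℕ) : ℝ) ≤ Real.log L + 2 := by
      have a1 : Real.log ((2 * l : ℕ) : ℝ) ≤ Real.log (4 * L) := by
        apply Real.log_le_log hl
        push_cast
        exact h4
      have a2 : Real.log (4 * L) = Real.log 4 + Real.log L := Real.log_mul (by norm_num) (by linarith)
      have a3 : Real.log 4 ≤ 2 := by
        have : Real.log 4 = 2 * Real.log 2 := by
          rw [show (4 : ℝ) = 2 ^ 2 by norm_num, Real.log_pow]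
          norm_num
        rw [this]
        have := Real.log_two_lt_d9
        linarith
      linarith
    calc Real.exp (2 * l) * ((2 * l)! : ℕ) ≤ Real.exp (2 * l) * ((2 * l : ℕ) : ℝ) ^ (2 * l) :=
          mul_le_mul_of_nonneg_left e1 (Real.exp_pos _).le
      _ = Real.exp (2 * l * (Real.log (2 * l : ℕ) + 1)) := by
          rw [e2, ← Real.exp_add]
          congr 1
          push_cast
          ring
      _ ≤ Real.exp (B * (Real.log L + 3)) := by
          apply Real.exp_le_exp.2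
          have b1 : 0 ≤ Real.log L + 3 := by linarith
          have b2 : Real.log ((2 * l : ℕ) : ℝ) + 1 ≤ Real.log L + 3 := by linarith
          calc 2 * (l : ℝ) * (Real.log (2 * l : ℕ) + 1) ≤ 2 * (l : ℝ) * (Real.log L + 3) :=
                mul_le_mul_of_nonneg_left b2 (by positivity)
            _ ≤ B * (Real.log L + 3) := mul_le_mul_of_nonneg_right h1 b1

theorem tj_sq (a b : ℂ) : ‖a + b‖ ^ 2 ≤ 2 * ‖a‖ ^ 2 + 2 * ‖b‖ ^ 2 := by
  have h := norm_add_le a b
  have h0 : 0 ≤ ‖a + b‖ := norm_nonneg _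
  nlinarith [sq_nonneg (‖a‖ - ‖b‖)]

theorem tj_sum_sq {ι : Type} (s : Finset ι) (g : ι → ℂ) : ‖∑ i ∈ s, g i‖ ^ 2 ≤ s.card * ∑ i ∈ s, ‖g i‖ ^ 2 := by
  have h1 := norm_sum_le s g
  have h2 : ‖∑ i ∈ s, g i‖ ^ 2 ≤ (∑ i ∈ s, ‖g i‖) ^ 2 := pow_le_pow_left₀ (norm_nonneg _) h1 2
  exact h2.trans (sq_sum_le_card_mul_sum_sq)

/-- the exponent -/
noncomputable def tj_l (H H' : ℝ) (v r : ℕ) : ℕ := ⌈((v : ℝ) / H) / ((r : ℝ) / H')⌉₊


/-- one pair of classes -/
theorem tj_pair {C₂ : ℝ} (hC₂ : 0 < C₂)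
    (hM : ∀ (P : Finset ℕ) (Y M T : ℝ) (l : ℕ) (f b : ℕ → ℂ),
      1 ≤ Y → 0 < M → 1 ≤ T → (∀ p ∈ P, p.Prime ∧ Y < p ∧ (p : ℝ) ≤ Real.exp 1 * Y) →
      (∀ n, ‖f n‖ ≤ 1) → (∀ n, ‖b n‖ ≤ 1) →
      ∫ t in (-T)..T, ‖DP P f t‖ ^ (2 * l) * ‖DP (IocN M (2 * M)) b t‖ ^ 2 ≤
        C₂ * (T / (Y ^ l * M) + 1) * (Real.exp (2 * l) * ((2 * l)! : ℕ)))
    {P' Q' H' α' P Q H α X T : ℝ} {f : ℕ → ℂ} {s : ℕ → Prop}
    (g0 : 0 < P') (g1 : 2 ≤ Real.log P') (g2 : P' < Q') (g3 : 1 ≤ H') (g4 : 0 < α')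
    (g5 : 2 ≤ P) (g6 : P < Q) (g7 : 1 ≤ H) (g8 : α' < α) (g9 : α ≤ 1) (g10 : 1 ≤ Real.log Q)
    (g11 : 4 * (Real.log (Real.log Q) + 3) ≤ (α - α') * Real.log P')
    (g12 : 1 ≤ X) (g13 : 1 ≤ T) (hf : ∀ n, ‖f n‖ ≤ 1) {v r : ℕ} (hv : v ∈ Vs P Q H) (hr : r ∈ Vs P' Q' H') :
    Real.exp (-(2 * α * (v / H))) * (Real.exp (2 * α' * (r / H')) ^ tj_l H H' v r *
      ∫ t in (-T)..T, ‖DP (Cls P' Q' H' r) f t‖ ^ (2 * tj_l H H' v r) *
        ‖DP (IocN (X * Real.exp (-(v / H))) (2 * (X * Real.exp (-(v / H))))) (bco P Q f s) t‖ ^ 2) ≤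
    C₂ * Real.exp 7 * (T / X + 1) * Real.exp (-((α - α') * Real.log P) + 2 * α' * Real.log Q' +
        2 * Real.log (Real.log Q)) := by
  have hH : 0 < H := by linarith
  have hH' : 0 < H' := by linarith
  have hX : 0 < X := by linarith
  have hlP : 0 ≤ Real.log P := Real.log_nonneg (by linarith)
  have hlQ' : Real.log P' ≤ Real.log Q' := Real.log_le_log g0 g2.le
  have hLL : 0 ≤ Real.log (Real.log Q) := Real.log_nonneg g10
  unfold Vs at hv hr
  rw [Finset.mem_Icc] at hv hr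
  set x : ℝ := (v : ℝ) / H with hx
  set ρ : ℝ := (r : ℝ) / H' with hρ
  set l := tj_l H H' v r with hl
  have hl' : l = ⌈x / ρ⌉₊ := rfl
  -- bounds for `x`
  have x0 : 0 ≤ x := by positivity
  have x1 : x ≤ Real.log Q := by
    rw [hx, div_le_iff₀ hH]
    have h1 : (v : ℝ) ≤ H * Real.log Q := by
      refine (Nat.cast_le.2 hv.2).trans (Nat.floor_le (by positivity))
    linarith
  have x2 : Real.log P - 1 ≤ x := by
    rw [hx, le_div_iff₀ hH]
    have h1 : H * Real.log P - 1 ≤ (v : ℝ) := by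
      have := Nat.lt_floor_add_one (H * Real.log P)
      have h2 : ((⌊H * Real.log P⌋₊ : ℕ) : ℝ) ≤ v := Nat.cast_le.2 hv.1
      linarith
    nlinarith
  -- bounds for `ρ`
  have r1 : ρ ≤ Real.log Q' := by
    rw [hρ, div_le_iff₀ hH']
    have h1 : (r : ℝ) ≤ H' * Real.log Q' := by
      refine (Nat.cast_le.2 hr.2).trans (Nat.floor_le (mul_nonneg hH'.le (by linarith)))
    linarith
  have r2 : Real.log P' / 2 ≤ ρ := by
    rw [hρ, le_div_iff₀ hH']
    have h1 : H' * Real.log P' - 1 ≤ (r : ℝ) := by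
      have := Nat.lt_floor_add_one (H' * Real.log P')
      have h2 : ((⌊H' * Real.log P'⌋₊ : ℕ) : ℝ) ≤ r := Nat.cast_le.2 hr.1
      linarith
    nlinarith
  have r0 : 0 < ρ := by linarith
  -- bounds for `l`
  have l1 : x ≤ l * ρ := by
    have : x / ρ ≤ (l : ℝ) := Nat.le_ceil _
    rwa [div_le_iff₀ r0] at this
  have l2 : (l : ℝ) * ρ ≤ x + ρ := by
    have h1 : (l : ℝ) < x / ρ + 1 := Nat.ceil_lt_add_one (by positivity)
    have h2 : (l : ℝ) * ρ ≤ (x / ρ + 1) * ρ := mul_le_mul_of_nonneg_right h1.le r0.le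
    rw [add_mul, one_mul, div_mul_cancel₀ _ r0.ne'] at h2
    exact h2
  have l3 : (2 * l : ℝ) ≤ 4 * x / Real.log P' + 2 := by
    have h1 : (l : ℝ) < x / ρ + 1 := Nat.ceil_lt_add_one (by positivity)
    have h2 : x / ρ ≤ x / (Real.log P' / 2) := div_le_div_of_nonneg_left x0 (by linarith) r2
    have h3 : x / (Real.log P' / 2) = 2 * x / Real.log P' := by
      field_simp
    have h4 : 4 * x / Real.log P' = 2 * (2 * x / Real.log P') := by ring
    linarith
  have l4 : (2 * l : ℝ) ≤ 4 * Real.log Q := by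
    have h1 : 4 * x / Real.log P' ≤ 2 * Real.log Q := by
      rw [div_le_iff₀ (by linarith)]
      nlinarith
    linarith
  have hY : 1 ≤ Real.exp ρ := Real.one_le_exp r0.le
  have key := hM (Cls P' Q' H' r) (Real.exp ρ) (X * Real.exp (-x)) T l f (bco P Q f s) hY (by positivity) g13
    (tj_Cls g3 r) hf (tj_bco hf)
  -- the length
  have hY2 : X ≤ Real.exp ρ ^ l * (X * Real.exp (-x)) := by
    have e1 : Real.exp ρ ^ l * (X * Real.exp (-x)) = X * Real.exp (l * ρ - x) := by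
      rw [← Real.exp_nat_mul, sub_eq_add_neg, Real.exp_add]
      ring
    rw [e1]
    have : 1 ≤ Real.exp (l * ρ - x) := Real.one_le_exp (by linarith)
    nlinarith
  have k1 : T / (Real.exp ρ ^ l * (X * Real.exp (-x))) + 1 ≤ T / X + 1 := by
    have := div_le_div_of_nonneg_left (by linarith : 0 ≤ T) hX hY2
    linarith
  have k2 := tj_fact l3 g10 (by positivity) l4
  have k3 : C₂ * (T / (Real.exp ρ ^ l * (X * Real.exp (-x))) + 1) * (Real.exp (2 * l) * ((2 * l)! : ℕ)) ≤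
      C₂ * (T / X + 1) * Real.exp ((4 * x / Real.log P' + 2) * (Real.log (Real.log Q) + 3)) := by
    refine mul_le_mul (mul_le_mul_of_nonneg_left k1 hC₂.le) k2 (by positivity) ?_
    have : 0 ≤ T / X := by positivity
    positivity
  have k4 : Real.exp (2 * α' * ρ) ^ l ≤ Real.exp (2 * α' * (x + Real.log Q')) := by
    rw [← Real.exp_nat_mul]
    apply Real.exp_le_exp.2
    have : (l : ℝ) * ρ ≤ x + Real.log Q' := by linarith
    nlinarith
  have k5 : 0 ≤ T / X + 1 := by positivity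
  calc Real.exp (-(2 * α * x)) * (Real.exp (2 * α' * ρ) ^ l * _)
      ≤ Real.exp (-(2 * α * x)) * (Real.exp (2 * α' * (x + Real.log Q')) *
        (C₂ * (T / X + 1) * Real.exp ((4 * x / Real.log P' + 2) * (Real.log (Real.log Q) + 3)))) := by
        refine mul_le_mul_of_nonneg_left ?_ (Real.exp_pos _).le
        refine mul_le_mul k4 (key.trans k3) ?_ (Real.exp_pos _).le
        refine intervalIntegral.integral_nonneg (by linarith) fun t _ => by positivity
    _ = C₂ * (T / X + 1) * Real.exp (-(2 * α * x) + 2 * α' * (x + Real.log Q') +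
        (4 * x / Real.log P' + 2) * (Real.log (Real.log Q) + 3)) := by
        rw [Real.exp_add, Real.exp_add]
        ring
    _ ≤ C₂ * (T / X + 1) * Real.exp (7 + (-((α - α') * Real.log P) + 2 * α' * Real.log Q' +
        2 * Real.log (Real.log Q))) := by
        refine mul_le_mul_of_nonneg_left (Real.exp_le_exp.2 ?_) (by positivity)
        have e1 : (4 * x / Real.log P' + 2) * (Real.log (Real.log Q) + 3)
            = x * (4 * (Real.log (Real.log Q) + 3) / Real.log P') + 2 * (Real.log (Real.log Q) + 3) := by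
          ring
        have e2 : 4 * (Real.log (Real.log Q) + 3) / Real.log P' ≤ α - α' := by
          rw [div_le_iff₀ (by linarith)]
          exact g11
        have e3 : x * (4 * (Real.log (Real.log Q) + 3) / Real.log P') ≤ x * (α - α') :=
          mul_le_mul_of_nonneg_left e2 x0
        have e4 : (α - α') * (Real.log P - 1) ≤ (α - α') * x := mul_le_mul_of_nonneg_left x2 (by linarith)
        rw [e1]
        nlinarith
    _ = C₂ * Real.exp 7 * (T / X + 1) * Real.exp (-((α - α') * Real.log P) + 2 * α' * Real.log Q' +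
        2 * Real.log (Real.log Q)) := by
        rw [Real.exp_add 7]
        ring

theorem tj_main (hDEC : ST_DEC) (hMOM : ST_MOM) : ∃ C : ℝ, 0 < C ∧
  ∀ (P' Q' H' α' P Q H α X T : ℝ) (f : ℕ → ℂ) (s : ℕ → Prop),
  0 < P' → 2 ≤ Real.log P' → P' < Q' → 1 ≤ H' → 0 < α' →
  2 ≤ P → P < Q → 1 ≤ H → α' < α → α ≤ 1 → 1 ≤ Real.log Q →
  4 * (Real.log (Real.log Q) + 3) ≤ (α - α') * Real.log P' →
  1 ≤ X → 1 ≤ T → CM f → Inv P Q s →
  ∫ t in {t | t ∈ Set.Icc (-T) T ∧ Small P Q H f α t ∧ ¬ Small P' Q' H' f α' t},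
      ‖DP (IocN X (2 * X)) (res (fun n => s n ∧ Hit P Q n) f) t‖ ^ 2 ≤
    C * (T / X + 1) * (1 / H + 1 / P + 1 / X + (H * Real.log Q + 1) ^ 2 *
      (H' * Real.log Q' + 1) * Real.exp (-((α - α') * Real.log P) + 2 * α' * Real.log Q' +
        2 * Real.log (Real.log Q))) := by
  obtain ⟨C₁, hC₁, hD⟩ := hDEC
  obtain ⟨C₂, hC₂, hM⟩ := hMOM
  refine ⟨2 * C₁ + 2 * (C₂ * Real.exp 7), by positivity, ?_⟩
  intro P' Q' H' α' P Q H α X T f s g0 g1 g2 g3 g4 g5 g6 g7 g8 g9 g10 g11 g12 g13 g14 g15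
  obtain ⟨E, hEc, hE1, hE2⟩ := hD P Q H X f s g5 g6 g7 g12 g14 g15
  have hf := g14.2.2
  have hH : 0 < H := by linarith
  have hH' : 0 < H' := by linarith
  have hX : 0 < X := by linarith
  have hlQ' : 0 ≤ Real.log Q' := by
    have := Real.log_le_log g0 g2.le
    linarith
  set A := DP (IocN X (2 * X)) (res (fun n => s n ∧ Hit P Q n) f) with hA
  set Rv : ℕ → ℝ → ℂ := fun v t =>
    DP (IocN (X * Real.exp (-(v / H))) (2 * (X * Real.exp (-(v / H))))) (bco P Q f s) t with hRv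
  set Qv : ℕ → ℝ → ℂ := fun v t => DP (Cls P Q H v) f t with hQv
  set Qr : ℕ → ℝ → ℂ := fun r t => DP (Cls P' Q' H' r) f t with hQr
  have cR : ∀ v, Continuous (Rv v) := fun v => tj_cont _ _
  have cQ : ∀ v, Continuous (Qr v) := fun v => tj_cont _ _
  set F : ℕ → ℕ → ℝ → ℝ := fun v r t => Real.exp (-(2 * α * (v / H))) *
    (Real.exp (2 * α' * (r / H')) ^ tj_l H H' v r * (‖Qr r t‖ ^ (2 * tj_l H H' v r) * ‖Rv v t‖ ^ 2)) with hF
  have cF : ∀ v r, Continuous (F v r) := fun v r => by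
    have h1 := (cQ r).norm.pow (2 * tj_l H H' v r)
    have h2 := (cR v).norm.pow 2
    exact continuous_const.mul (continuous_const.mul (h1.mul h2))
  have F0 : ∀ v r t, 0 ≤ F v r t := fun v r t => by
    simp only [hF]
    positivity
  set G : ℝ → ℝ := fun t => 2 * ‖E t‖ ^ 2 +
    2 * ((Vs P Q H).card * ∑ v ∈ Vs P Q H, ∑ r ∈ Vs P' Q' H', F v r t) with hG
  have cG : Continuous G := by
    have h1 : Continuous fun t => ∑ v ∈ Vs P Q H, ∑ r ∈ Vs P' Q' H', F v r t :=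
      continuous_finsetSum _ fun v _ => continuous_finsetSum _ fun r _ => cF v r
    exact (continuous_const.mul (hEc.norm.pow 2)).add (continuous_const.mul (continuous_const.mul h1))
  have G0 : ∀ t, 0 ≤ G t := fun t => by
    have : 0 ≤ ∑ v ∈ Vs P Q H, ∑ r ∈ Vs P' Q' H', F v r t :=
      Finset.sum_nonneg fun v _ => Finset.sum_nonneg fun r _ => F0 v r t
    simp only [hG]
    positivity
  have meas : MeasurableSet {t | t ∈ Set.Icc (-T) T ∧ Small P Q H f α t ∧ ¬ Small P' Q' H' f α' t} :=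
    measurableSet_Icc.inter ((tj_meas P Q H f α).inter (tj_meas P' Q' H' f α').compl)
  have hle : ∀ t ∈ {t | t ∈ Set.Icc (-T) T ∧ Small P Q H f α t ∧ ¬ Small P' Q' H' f α' t},
      ‖A t‖ ^ 2 ≤ G t := by
    rintro t ⟨_, hs1, hs2⟩
    have h1 : A t = E t + ∑ v ∈ Vs P Q H, Qv v t * Rv v t := by
      rw [hE1 t, add_comm]
    rw [h1]
    refine (tj_sq _ _).trans ?_
    simp only [hG]
    refine add_le_add le_rfl (mul_le_mul_of_nonneg_left ?_ (by norm_num))
    refine (tj_sum_sq _ _).trans (mul_le_mul_of_nonneg_left (Finset.sum_le_sum fun v hv => ?_) (Nat.cast_nonneg _))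
    -- one class
    have a1 : ‖Qv v t‖ ≤ Real.exp (-(α * (v / H))) := hs1 v hv
    have a2 : ‖Qv v t‖ ^ 2 ≤ Real.exp (-(2 * α * (v / H))) := by
      calc ‖Qv v t‖ ^ 2 ≤ Real.exp (-(α * (v / H))) ^ 2 := pow_le_pow_left₀ (norm_nonneg _) a1 2
        _ = Real.exp (-(2 * α * (v / H))) := by
          rw [← Real.exp_nat_mul]
          congr 1
          push_cast
          ring
    unfold Small at hs2
    push Not at hs2
    obtain ⟨r, hr, hlt⟩ := hs2
    have b1 : 1 ≤ ‖Qr r t‖ * Real.exp (α' * (r / H')) := by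
      have : Real.exp (-(α' * (r / H'))) * Real.exp (α' * (r / H')) = 1 := by
        rw [← Real.exp_add, neg_add_cancel, Real.exp_zero]
      rw [← this]
      exact mul_le_mul_of_nonneg_right hlt.le (Real.exp_pos _).le
    have b2 : 1 ≤ Real.exp (2 * α' * (r / H')) ^ tj_l H H' v r * ‖Qr r t‖ ^ (2 * tj_l H H' v r) := by
      have e1 : Real.exp (2 * α' * (r / H')) ^ tj_l H H' v r * ‖Qr r t‖ ^ (2 * tj_l H H' v r)
          = (‖Qr r t‖ * Real.exp (α' * (r / H'))) ^ (2 * tj_l H H' v r) := by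
        rw [mul_pow, mul_comm, pow_mul (Real.exp (α' * (r / H'))), ← Real.exp_nat_mul (α' * (r / H')) 2]
        congr 3
        push_cast
        ring
      rw [e1]
      exact one_le_pow₀ b1
    have b3 : ‖Qv v t * Rv v t‖ ^ 2 ≤ F v r t := by
      rw [norm_mul, mul_pow]
      simp only [hF]
      refine mul_le_mul a2 ?_ (by positivity) (Real.exp_pos _).le
      rw [← mul_assoc]
      exact le_mul_of_one_le_left (by positivity) b2
    exact b3.trans (Finset.single_le_sum (f := fun r => F v r t) (fun r _ => F0 v r t) hr)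
  refine (tj_region meas (fun t ht => ht.1) (by linarith) ((tj_cont _ _).norm.pow 2) cG G0 hle).trans ?_
  -- the integral of `G`
  have iF : ∀ v r, IntervalIntegrable (F v r) volume (-T) T := fun v r => (cF v r).intervalIntegrable _ _
  have e1 : ∫ t in (-T)..T, G t = 2 * (∫ t in (-T)..T, ‖E t‖ ^ 2) +
      2 * ((Vs P Q H).card * ∑ v ∈ Vs P Q H, ∑ r ∈ Vs P' Q' H', ∫ t in (-T)..T, F v r t) := by
    have i1 : IntervalIntegrable (fun t => 2 * ‖E t‖ ^ 2) volume (-T) T :=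
      (continuous_const.mul (hEc.norm.pow 2)).intervalIntegrable _ _
    have i2 : IntervalIntegrable (fun t => 2 * ((Vs P Q H).card *
        ∑ v ∈ Vs P Q H, ∑ r ∈ Vs P' Q' H', F v r t)) volume (-T) T := by
      apply Continuous.intervalIntegrable
      exact continuous_const.mul (continuous_const.mul
        (continuous_finsetSum _ fun v _ => continuous_finsetSum _ fun r _ => cF v r))
    simp only [hG]
    rw [intervalIntegral.integral_add i1 i2, intervalIntegral.integral_const_mul,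
      intervalIntegral.integral_const_mul, intervalIntegral.integral_const_mul]
    congr 3
    rw [intervalIntegral.integral_finsetSum]
    · refine Finset.sum_congr rfl fun v _ => ?_
      rw [intervalIntegral.integral_finsetSum]
      exact fun r _ => iF v r
    · intro v _
      exact (continuous_finsetSum _ fun r _ => cF v r).intervalIntegrable _ _
  rw [e1]
  set W : ℝ := Real.exp (-((α - α') * Real.log P) + 2 * α' * Real.log Q' + 2 * Real.log (Real.log Q)) with hW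
  have hW0 : 0 < W := Real.exp_pos _
  have hTX : 0 ≤ T / X + 1 := by positivity
  have e2 : ∀ v ∈ Vs P Q H, ∀ r ∈ Vs P' Q' H', ∫ t in (-T)..T, F v r t ≤ C₂ * Real.exp 7 * (T / X + 1) * W := by
    intro v hv r hr
    have := tj_pair hC₂ hM g0 g1 g2 g3 g4 g5 g6 g7 g8 g9 g10 g11 g12 g13 hf (s := s) hv hr
    simp only [hF]
    rw [intervalIntegral.integral_const_mul, intervalIntegral.integral_const_mul]
    exact this
  have c1 : ((Vs P Q H).card : ℝ) ≤ H * Real.log Q + 1 := tj_card (by positivity)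
  have c2 : ((Vs P' Q' H').card : ℝ) ≤ H' * Real.log Q' + 1 := tj_card (by positivity)
  have e3 : ∑ v ∈ Vs P Q H, ∑ r ∈ Vs P' Q' H', ∫ t in (-T)..T, F v r t ≤
      (H * Real.log Q + 1) * ((H' * Real.log Q' + 1) * (C₂ * Real.exp 7 * (T / X + 1) * W)) := by
    have w0 : 0 ≤ C₂ * Real.exp 7 * (T / X + 1) * W := by positivity
    calc ∑ v ∈ Vs P Q H, ∑ r ∈ Vs P' Q' H', ∫ t in (-T)..T, F v r t
        ≤ ∑ v ∈ Vs P Q H, ∑ r ∈ Vs P' Q' H', C₂ * Real.exp 7 * (T / X + 1) * W :=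
          Finset.sum_le_sum fun v hv => Finset.sum_le_sum fun r hr => e2 v hv r hr
      _ = (Vs P Q H).card * ((Vs P' Q' H').card * (C₂ * Real.exp 7 * (T / X + 1) * W)) := by
          rw [Finset.sum_const, Finset.sum_const, nsmul_eq_mul, nsmul_eq_mul]
      _ ≤ (H * Real.log Q + 1) * ((H' * Real.log Q' + 1) * (C₂ * Real.exp 7 * (T / X + 1) * W)) := by
          refine mul_le_mul c1 (mul_le_mul_of_nonneg_right c2 w0) (by positivity) (by positivity)
  have e4 := hE2 T g13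
  have s0 : 0 ≤ (H * Real.log Q + 1) * ((H' * Real.log Q' + 1) * (C₂ * Real.exp 7 * (T / X + 1) * W)) := by
    positivity
  have e5 : ((Vs P Q H).card : ℝ) * ∑ v ∈ Vs P Q H, ∑ r ∈ Vs P' Q' H', ∫ t in (-T)..T, F v r t ≤
      (H * Real.log Q + 1) * ((H * Real.log Q + 1) *
        ((H' * Real.log Q' + 1) * (C₂ * Real.exp 7 * (T / X + 1) * W))) :=
    (mul_le_mul_of_nonneg_left e3 (Nat.cast_nonneg _)).trans (mul_le_mul_of_nonneg_right c1 s0)
  have p1 : 0 ≤ C₁ * (T / X + 1) * ((H * Real.log Q + 1) ^ 2 * (H' * Real.log Q' + 1) * W) := by positivity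
  have p2 : 0 ≤ (C₂ * Real.exp 7) * (T / X + 1) * (1 / H + 1 / P + 1 / X) := by
    have : 0 < P := by linarith
    positivity
  have e6 : (H * Real.log Q + 1) * ((H * Real.log Q + 1) *
        ((H' * Real.log Q' + 1) * (C₂ * Real.exp 7 * (T / X + 1) * W)))
      = (C₂ * Real.exp 7) * (T / X + 1) * ((H * Real.log Q + 1) ^ 2 * (H' * Real.log Q' + 1) * W) := by
    ring
  rw [e6] at e5
  calc 2 * (∫ t in (-T)..T, ‖E t‖ ^ 2) +
      2 * ((Vs P Q H).card * ∑ v ∈ Vs P Q H, ∑ r ∈ Vs P' Q' H', ∫ t in (-T)..T, F v r t)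
      ≤ 2 * (C₁ * (T / X + 1) * (1 / H + 1 / P + 1 / X)) +
        2 * ((C₂ * Real.exp 7) * (T / X + 1) * ((H * Real.log Q + 1) ^ 2 * (H' * Real.log Q' + 1) * W)) := by
        linarith
    _ ≤ (2 * C₁ + 2 * (C₂ * Real.exp 7)) * (T / X + 1) * (1 / H + 1 / P + 1 / X + (H * Real.log Q + 1) ^ 2 *
      (H' * Real.log Q' + 1) * W) := by
        linear_combination 2 * p1 + 2 * p2

theorem st_TJ (hDEC : ST_DEC) (hMOM : ST_MOM) : ST_TJ := tj_main hDEC hMOM

end Pool.Agent.Helper40.MR
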