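import Pool.Agent.Helper70.MR.TJ

/-!
Module UM: the measure of the last region.
-/

open Finset MeasureTheory
open scoped BigOperators Nat

namespace Pool.Agent.Helper40.MR

theorem um_one (t : ℝ) : ‖DP (IocN (1 / 2) (2 * (1 / 2))) (fun _ => 1) t‖ = 1 := by
  have e : IocN (1 / 2) (2 * (1 / 2)) = {1} := by
    unfold IocN
    have h1 : ⌊(1 / 2 : ℝ)⌋₊ = 0 := Nat.floor_eq_zero.2 (by norm_num)
    have h2 : ⌊(2 * (1 / 2) : ℝ)⌋₊ = 1 := by
      norm_num
    rw [h1, h2]
    rfl
  rw [e]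
  simp [DP, nit]

theorem um_main (hMOM : ST_MOM) : ∃ C : ℝ, 0 < C ∧ ∀ (P' Q' H' α' Z T : ℝ) (f : ℕ → ℂ),
  0 < P' → 2 ≤ Real.log P' → P' < Q' → 1 ≤ H' → 0 < α' → α' ≤ 1 → (∀ n, ‖f n‖ ≤ 1) →
  1 ≤ T → T ≤ Z → 3 ≤ Z →
  (volume {t | t ∈ Set.Icc (-T) T ∧ ¬ Small P' Q' H' f α' t}).toReal ≤
    C * (H' * Real.log Q' + 1) * Real.exp (2 * α' * (Real.log Z + Real.log Q') +
      (4 * Real.log Z / Real.log P' + 2) * (Real.log (Real.log Z) + 3)) := by
  obtain ⟨C₂, hC₂, hM⟩ := hMOM
  refine ⟨3 * C₂, by positivity, ?_⟩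
  intro P' Q' H' α' Z T f g0 g1 g2 g3 g4 g5 hf g6 g7 g8
  have hH' : 0 < H' := by linarith
  have hlQ' : Real.log P' ≤ Real.log Q' := Real.log_le_log g0 g2.le
  have hZ : 1 ≤ Real.log Z := by
    have h1 : Real.log 3 ≤ Real.log Z := Real.log_le_log (by norm_num) g8
    have h2 : 1 ≤ Real.log 3 := by
      rw [Real.le_log_iff_exp_le (by norm_num)]
      exact Real.exp_one_lt_d9.le.trans (by norm_num)
    linarith
  have hZ0 : 0 < Z := by linarith
  set l : ℕ → ℕ := fun r => ⌈Real.log Z / ((r : ℝ) / H')⌉₊ with hl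
  set Qr : ℕ → ℝ → ℂ := fun r t => DP (Cls P' Q' H' r) f t with hQr
  have cQ : ∀ v, Continuous (Qr v) := fun v => tj_cont _ _
  set R1 : ℝ → ℂ := DP (IocN (1 / 2) (2 * (1 / 2))) (fun _ => 1) with hR1
  set F : ℕ → ℝ → ℝ := fun r t => Real.exp (2 * α' * (r / H')) ^ l r *
    (‖Qr r t‖ ^ (2 * l r) * ‖R1 t‖ ^ 2) with hF
  have cF : ∀ r, Continuous (F r) := fun r =>
    continuous_const.mul (((cQ r).norm.pow (2 * l r)).mul ((tj_cont _ _).norm.pow 2))
  have F0 : ∀ r t, 0 ≤ F r t := fun r t => by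
    simp only [hF]
    positivity
  have meas : MeasurableSet {t | t ∈ Set.Icc (-T) T ∧ ¬ Small P' Q' H' f α' t} :=
    measurableSet_Icc.inter (tj_meas P' Q' H' f α').compl
  have hle : ∀ t ∈ {t | t ∈ Set.Icc (-T) T ∧ ¬ Small P' Q' H' f α' t},
      (1 : ℝ) ≤ ∑ r ∈ Vs P' Q' H', F r t := by
    rintro t ⟨_, hs2⟩
    unfold Small at hs2
    push Not at hs2
    obtain ⟨r, hr, hlt⟩ := hs2
    have b1 : 1 ≤ ‖Qr r t‖ * Real.exp (α' * (r / H')) := by
      have : Real.exp (-(α' * (r / H'))) * Real.exp (α' * (r / H')) = 1 := by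
        rw [← Real.exp_add, neg_add_cancel, Real.exp_zero]
      rw [← this]
      exact mul_le_mul_of_nonneg_right hlt.le (Real.exp_pos _).le
    have b2 : 1 ≤ F r t := by
      have e1 : F r t = (‖Qr r t‖ * Real.exp (α' * (r / H'))) ^ (2 * l r) := by
        simp only [hF, hR1]
        rw [um_one, one_pow, mul_one, mul_pow, mul_comm, pow_mul (Real.exp (α' * (r / H'))),
          ← Real.exp_nat_mul (α' * (r / H')) 2]
        congr 3
        push_cast
        ring
      rw [e1]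
      exact one_le_pow₀ b1
    exact b2.trans (Finset.single_le_sum (f := fun r => F r t) (fun r _ => F0 r t) hr)
  have v1 : (volume {t | t ∈ Set.Icc (-T) T ∧ ¬ Small P' Q' H' f α' t}).toReal
      = ∫ _ in {t | t ∈ Set.Icc (-T) T ∧ ¬ Small P' Q' H' f α' t}, (1 : ℝ) := by
    rw [setIntegral_const, smul_eq_mul, mul_one]
    rfl
  rw [v1]
  refine (tj_region meas (fun t ht => ht.1) (by linarith) continuous_const
    (continuous_finsetSum _ fun r _ => cF r) (fun t => Finset.sum_nonneg fun r _ => F0 r t) hle).trans ?_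
  rw [intervalIntegral.integral_finsetSum (fun r _ => (cF r).intervalIntegrable _ _)]
  set W : ℝ := Real.exp (2 * α' * (Real.log Z + Real.log Q') +
      (4 * Real.log Z / Real.log P' + 2) * (Real.log (Real.log Z) + 3)) with hW
  have e2 : ∀ r ∈ Vs P' Q' H', ∫ t in (-T)..T, F r t ≤ 3 * C₂ * W := by
    intro r hr
    unfold Vs at hr
    rw [Finset.mem_Icc] at hr
    set ρ : ℝ := (r : ℝ) / H' with hρ
    have r1 : ρ ≤ Real.log Q' := by
      rw [hρ, div_le_iff₀ hH']
      have h1 : (r : ℝ) ≤ H' * Real.log Q' := by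
        refine (Nat.cast_le.2 hr.2).trans (Nat.floor_le (mul_nonneg hH'.le (by linarith)))
      linarith
    have r2 : Real.log P' / 2 ≤ ρ := by
      rw [hρ, le_div_iff₀ hH']
      have h1 : H' * Real.log P' - 1 ≤ (r : ℝ) := by
        have := Nat.lt_floor_add_one (H' * Real.log P')
        have h2 : ((⌊H' * Real.log P'⌋₊ : ℕ) : ℝ) ≤ r := Nat.cast_le.2 hr.1
        linarith
      nlinarith
    have r0 : 0 < ρ := by linarith
    have l1 : Real.log Z ≤ l r * ρ := by
      have : Real.log Z / ρ ≤ (l r : ℝ) := Nat.le_ceil _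
      rwa [div_le_iff₀ r0] at this
    have l0 : (l r : ℝ) < Real.log Z / ρ + 1 := Nat.ceil_lt_add_one (by positivity)
    have l2 : (l r : ℝ) * ρ ≤ Real.log Z + ρ := by
      have h2 : (l r : ℝ) * ρ ≤ (Real.log Z / ρ + 1) * ρ := mul_le_mul_of_nonneg_right l0.le r0.le
      rw [add_mul, one_mul, div_mul_cancel₀ _ r0.ne'] at h2
      exact h2
    have l3 : (2 * l r : ℝ) ≤ 4 * Real.log Z / Real.log P' + 2 := by
      have h2 : Real.log Z / ρ ≤ Real.log Z / (Real.log P' / 2) :=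
        div_le_div_of_nonneg_left (by linarith) (by linarith) r2
      have h3 : Real.log Z / (Real.log P' / 2) = 2 * Real.log Z / Real.log P' := by
        field_simp
      have h4 : 4 * Real.log Z / Real.log P' = 2 * (2 * Real.log Z / Real.log P') := by ring
      linarith
    have l4 : (2 * l r : ℝ) ≤ 4 * Real.log Z := by
      have h1 : 4 * Real.log Z / Real.log P' ≤ 2 * Real.log Z := by
        rw [div_le_iff₀ (by linarith)]
        nlinarith
      linarith
    have key := hM (Cls P' Q' H' r) (Real.exp ρ) (1 / 2) T (l r) f (fun _ => 1) (Real.one_le_exp r0.le)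
      (by norm_num) g6 (tj_Cls g3 r) hf (fun _ => by simp)
    have hY2 : Z ≤ Real.exp ρ ^ l r := by
      rw [← Real.exp_nat_mul]
      calc Z = Real.exp (Real.log Z) := (Real.exp_log hZ0).symm
        _ ≤ _ := Real.exp_le_exp.2 l1
    have k1 : T / (Real.exp ρ ^ l r * (1 / 2)) + 1 ≤ 3 := by
      have : T / (Real.exp ρ ^ l r * (1 / 2)) ≤ 2 := by
        rw [div_le_iff₀ (by positivity)]
        linarith
      linarith
    have k2 := tj_fact l3 hZ (by positivity) l4
    have k3 : C₂ * (T / (Real.exp ρ ^ l r * (1 / 2)) + 1) * (Real.exp (2 * l r) * ((2 * l r)! : ℕ)) ≤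
        C₂ * 3 * Real.exp ((4 * Real.log Z / Real.log P' + 2) * (Real.log (Real.log Z) + 3)) :=
      mul_le_mul (mul_le_mul_of_nonneg_left k1 hC₂.le) k2 (by positivity) (by positivity)
    have k4 : Real.exp (2 * α' * ρ) ^ l r ≤ Real.exp (2 * α' * (Real.log Z + Real.log Q')) := by
      rw [← Real.exp_nat_mul]
      apply Real.exp_le_exp.2
      have : (l r : ℝ) * ρ ≤ Real.log Z + Real.log Q' := by linarith
      nlinarith
    simp only [hF]
    rw [intervalIntegral.integral_const_mul]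
    calc Real.exp (2 * α' * ρ) ^ l r * _ ≤ Real.exp (2 * α' * (Real.log Z + Real.log Q')) *
          (C₂ * 3 * Real.exp ((4 * Real.log Z / Real.log P' + 2) * (Real.log (Real.log Z) + 3))) := by
          refine mul_le_mul k4 (key.trans k3) ?_ (Real.exp_pos _).le
          exact intervalIntegral.integral_nonneg (by linarith) fun t _ => by positivity
      _ = 3 * C₂ * W := by
          rw [hW, Real.exp_add]
          ring
  have c2 : ((Vs P' Q' H').card : ℝ) ≤ H' * Real.log Q' + 1 :=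
    tj_card (mul_nonneg hH'.le (by linarith))
  have w0 : 0 ≤ 3 * C₂ * W := by positivity
  calc ∑ r ∈ Vs P' Q' H', ∫ t in (-T)..T, F r t ≤ ∑ r ∈ Vs P' Q' H', 3 * C₂ * W := Finset.sum_le_sum e2
    _ = (Vs P' Q' H').card * (3 * C₂ * W) := by rw [Finset.sum_const, nsmul_eq_mul]
    _ ≤ (H' * Real.log Q' + 1) * (3 * C₂ * W) := mul_le_mul_of_nonneg_right c2 w0
    _ = 3 * C₂ * (H' * Real.log Q' + 1) * W := by ring

theorem st_UM (hMOM : ST_MOM) : ST_UM := um_main hMOM

end Pool.Agent.Helper40.MR
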